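import Pool.Agent.Lib.MP_3240be_co.H51.Defs

/-!
# MP_3240be_co, board TREES, row L8: (I.8)

The vertex `s` goes to `y`, the branch `K` is embedded greedily inside `B` with `b1 ↦ q`, the other
`A`-vertices go to `Y \ {y}`, and the rest of the `B`-vertices are common neighbours of `Y`.
-/

set_option autoImplicit false

namespace MP3240T

open Finset

/-- A finite set maps injectively into any finite set that is at least as large. -/
theorem L8_exists_injOn {X V : Type} [Inhabited V] (s : Finset X) (t : Finset V)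
    (h : s.card ≤ t.card) : ∃ f : X → V, (∀ x ∈ s, f x ∈ t) ∧ Set.InjOn f (s : Set X) := by
  classical
  have h' : Fintype.card s ≤ Fintype.card t := by simpa using h
  obtain ⟨e⟩ := Function.Embedding.nonempty_of_card_le h'
  refine ⟨fun x => if hx : x ∈ s then (e ⟨x, hx⟩ : V) else default, ?_, ?_⟩
  · intro x hx
    simp only [hx, dif_pos]
    exact (e ⟨x, hx⟩).2
  · intro x hx y hy hxy
    have hx' : x ∈ s := hx
    have hy' : y ∈ s := hy
    simp only [hx', hy', dif_pos] at hxy
    have := e.injective (Subtype.ext hxy)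
    exact congrArg Subtype.val this

theorem l8_proof (hE : ExtStatement) (hG : GrdStatement) : L8Statement := by
  classical
  intro n a T κ D V G B Y y q hyY hYc hfull hYB hqB hyq hgr
  have : Inhabited V := ⟨q⟩
  obtain ⟨g, hgi, hgB, hgb, hga⟩ := hG V G B n T D.K D.b1 q D.tree D.b1K hqB hgr
  -- the other `A`-vertices
  set R : Finset (Fin n) := ((clA κ).erase D.s) \ D.K with hR
  have hRc : R.card ≤ (Y.erase y).card := by
    obtain ⟨x0, hx0K, hx0A⟩ := D.KA
    have h1 : R ⊆ ((clA κ).erase D.s).erase x0 := by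
      intro x hx
      rw [hR, mem_sdiff] at hx
      rw [mem_erase]
      refine ⟨?_, hx.1⟩
      rintro rfl
      exact hx.2 hx0K
    have hx0s : x0 ≠ D.s := by
      rintro rfl
      exact D.sK hx0K
    have h2 : (((clA κ).erase D.s).erase x0).card + 1 = ((clA κ).erase D.s).card :=
      card_erase_add_one (by rw [mem_erase]; exact ⟨hx0s, by simp [clA, hx0A]⟩)
    have h3 : ((clA κ).erase D.s).card + 1 = a := by
      rw [card_erase_add_one (by simp [clA, D.hs]), D.cardA]
    have h4 : (Y.erase y).card + 1 = Y.card := card_erase_add_one hyY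
    have h5 := card_le_card h1
    omega
  obtain ⟨f, hfm, hfi⟩ := L8_exists_injOn R (Y.erase y) hRc
  let φ : Fin n → V := fun x => if x ∈ D.K then g x else if x = D.s then y else f x
  have hφK : ∀ x ∈ D.K, φ x = g x := by
    intro x hx
    simp [φ, hx]
  have hφs : φ D.s = y := by simp [φ, D.sK]
  have hφR : ∀ x, κ x = true → x ∉ D.K → x ≠ D.s → φ x = f x ∧ x ∈ R := by
    intro x hκ hxK hxs
    refine ⟨by simp [φ, hxK, hxs], ?_⟩
    rw [hR, mem_sdiff, mem_erase]
    exact ⟨⟨hxs, by simp [clA, hκ]⟩, hxK⟩
  have hφY : ∀ x, κ x = true → x ∉ D.K → φ x ∈ Y := by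
    intro x hκ hxK
    by_cases hxs : x = D.s
    · rw [hxs, hφs]; exact hyY
    · rw [(hφR x hκ hxK hxs).1]
      exact mem_of_mem_erase (hfm x (hφR x hκ hxK hxs).2)
  have hφB : ∀ x ∈ D.K, φ x ∈ B := by
    intro x hx
    rw [hφK x hx]
    exact hgB x hx
  have hW : ∀ x, x ∈ clA κ ∪ D.K ↔ κ x = true ∨ x ∈ D.K := by
    intro x
    simp [clA]
  have cross : ∀ i j, i ∈ D.K → j ∉ D.K → T.Adj i j → G.Adj (φ i) (φ j) := by
    intro i j hi hj hij
    have h1 := D.closed i hi j hj hij
    subst h1
    have h2 := D.only i hi hij.symm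
    rw [hφs, hφK i hi, h2, hgb]
    exact hyq.symm
  refine hE V G n T (clA κ ∪ D.K) φ ?_ ?_ ?_ ?_
  · intro x hx x' hx' hxx
    rw [mem_coe, hW] at hx hx'
    by_cases h1 : x ∈ D.K
    · by_cases h2 : x' ∈ D.K
      · rw [hφK x h1, hφK x' h2] at hxx
        exact hgi h1 h2 hxx
      · exfalso
        have h3 := hφY x' (hx'.resolve_right h2) h2
        exact hYB _ h3 (hxx ▸ hφB x h1)
    · by_cases h2 : x' ∈ D.K
      · exfalso
        have h3 := hφY x (hx.resolve_right h1) h1
        exact hYB _ h3 (hxx.symm ▸ hφB x' h2)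
      · have hκ := hx.resolve_right h1
        have hκ' := hx'.resolve_right h2
        by_cases h3 : x = D.s
        · by_cases h4 : x' = D.s
          · rw [h3, h4]
          · exfalso
            rw [h3, hφs, (hφR x' hκ' h2 h4).1] at hxx
            exact (mem_erase.1 (hfm x' (hφR x' hκ' h2 h4).2)).1 hxx.symm
        · by_cases h4 : x' = D.s
          · exfalso
            rw [h4, hφs, (hφR x hκ h1 h3).1] at hxx
            exact (mem_erase.1 (hfm x (hφR x hκ h1 h3).2)).1 hxx
          · rw [(hφR x hκ h1 h3).1, (hφR x' hκ' h2 h4).1] at hxx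
            exact hfi (hφR x hκ h1 h3).2 (hφR x' hκ' h2 h4).2 hxx
  · intro i hi j hj hij
    rw [hW] at hi hj
    by_cases h1 : i ∈ D.K
    · by_cases h2 : j ∈ D.K
      · rw [hφK i h1, hφK j h2]
        exact hga i h1 j h2 hij
      · exact cross i j h1 h2 hij
    · by_cases h2 : j ∈ D.K
      · exact (cross j i h2 h1 hij.symm).symm
      · exact absurd ((hi.resolve_right h1).trans (hj.resolve_right h2).symm) (D.prop _ _ hij)
  · intro i hi j hj hij
    rw [hW, not_or] at hi hj
    apply D.prop _ _ hij
    have h1 : κ i = false := by simpa using hi.1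
    have h2 : κ j = false := by simpa using hj.1
    rw [h1, h2]
  · intro u hu
    rw [hW, not_or] at hu
    have hκu : κ u = false := by simpa using hu.1
    refine hfull.mono ?_
    intro z hz i _ hui
    have hκi : κ i = true := by
      have h2 := D.prop _ _ hui
      rw [hκu] at h2
      cases h : κ i
      · exact absurd h.symm h2
      · rfl
    have hiK : i ∉ D.K := by
      intro hiK
      have h1 := D.closed i hiK u hu.2 hui.symm
      have h2 := D.hs
      rw [← h1, hκu] at h2
      exact Bool.false_ne_true h2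
    exact hz _ (hφY i hκi hiK)

end MP3240T
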